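import Mathlib

/-!
# Rational structures, complex conjugation and Gram matrices
-/

set_option linter.unusedSectionVars false

namespace Pool.Agent.Y137.HT

open scoped ComplexConjugate ComplexOrder

noncomputable section

variable {M : Type*} [AddCommGroup M] [Module ℂ M] [Module ℚ M] [IsScalarTower ℚ ℂ M]

/-- The relation `y = conj x` on the complex span of a rational subspace. -/
inductive IsConj (Q : Submodule ℚ M) : M → M → Prop
  | zero : IsConj Q 0 0
  | add_smul (c : ℂ) (f x y : M) : f ∈ Q → IsConj Q x y → IsConj Q (c • f + x) (conj c • f + y)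

variable {Q : Submodule ℚ M}

theorem IsConj.add {x y x' y' : M} (h : IsConj Q x y) (h' : IsConj Q x' y') :
    IsConj Q (x + x') (y + y') := by
  induction h with
  | zero => rwa [zero_add, zero_add]
  | add_smul c f x y hf _ ih =>
    rw [add_assoc, add_assoc]
    exact .add_smul c f _ _ hf ih

theorem IsConj.smul {x y : M} (c : ℂ) (h : IsConj Q x y) : IsConj Q (c • x) (conj c • y) := by
  induction h with
  | zero =>
    rw [smul_zero, smul_zero]
    exact .zero
  | add_smul d f x y hf _ ih =>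
    rw [smul_add, smul_add, smul_smul, smul_smul, ← map_mul]
    exact .add_smul _ f _ _ hf ih

theorem IsConj.of_mem {f : M} (hf : f ∈ Q) : IsConj Q f f := by
  have h := IsConj.add_smul 1 f 0 0 hf IsConj.zero
  simpa using h

theorem IsConj.symm {x y : M} (h : IsConj Q x y) : IsConj Q y x := by
  induction h with
  | zero => exact .zero
  | add_smul c f x y hf _ ih =>
    have h1 := IsConj.add_smul (conj c) f _ _ hf ih
    rwa [Complex.conj_conj] at h1

theorem IsConj.mem {x y : M} (h : IsConj Q x y) : x ∈ Submodule.span ℂ (Q : Set M) := by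
  induction h with
  | zero => exact zero_mem _
  | add_smul c f x y hf _ ih =>
    exact add_mem (Submodule.smul_mem _ _ (Submodule.subset_span hf)) ih

theorem exists_conj {x : M} (h : x ∈ Submodule.span ℂ (Q : Set M)) : ∃ y, IsConj Q x y := by
  induction h using Submodule.span_induction with
  | mem x h => exact ⟨x, .of_mem h⟩
  | zero => exact ⟨0, .zero⟩
  | add x y _ _ hx hy =>
    obtain ⟨x', hx⟩ := hx
    obtain ⟨y', hy⟩ := hy
    exact ⟨_, hx.add hy⟩
  | smul c x _ hx =>
    obtain ⟨x', hx⟩ := hx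
    exact ⟨_, hx.smul c⟩

theorem IsConj.sum {n : Type*} (s : Finset n) (x y : n → M) (h : ∀ i ∈ s, IsConj Q (x i) (y i)) :
    IsConj Q (∑ i ∈ s, x i) (∑ i ∈ s, y i) := by
  classical
  induction s using Finset.induction_on with
  | empty => exact .zero
  | insert a s ha ih =>
    rw [Finset.sum_insert ha, Finset.sum_insert ha]
    exact (h a (Finset.mem_insert_self a s)).add (ih fun i hi => h i (Finset.mem_insert_of_mem hi))

/-- A linear map that respects the rational structures. -/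
theorem IsConj.map {M' : Type*} [AddCommGroup M'] [Module ℂ M'] [Module ℚ M']
    [IsScalarTower ℚ ℂ M'] {Q' : Submodule ℚ M'} (F : M →ₗ[ℂ] M') (hF : ∀ f ∈ Q, F f ∈ Q')
    {x y : M} (h : IsConj Q x y) : IsConj Q' (F x) (F y) := by
  induction h with
  | zero =>
    rw [map_zero]
    exact .zero
  | add_smul c f x y hf _ ih =>
    rw [map_add, map_add, map_smul, map_smul]
    exact .add_smul c _ _ _ (hF f hf) ih

/-- A bilinear map that respects the rational structures. -/
theorem IsConj.map₂ {M' M'' : Type*} [AddCommGroup M'] [Module ℂ M'] [Module ℚ M']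
    [IsScalarTower ℚ ℂ M'] [AddCommGroup M''] [Module ℂ M''] [Module ℚ M'']
    [IsScalarTower ℚ ℂ M''] {Q' : Submodule ℚ M'} {Q'' : Submodule ℚ M''}
    (T : M →ₗ[ℂ] M' →ₗ[ℂ] M'') (hT : ∀ f ∈ Q, ∀ g ∈ Q', T f g ∈ Q'')
    {x y : M} {x' y' : M'} (h : IsConj Q x y) (h' : IsConj Q' x' y') :
    IsConj Q'' (T x x') (T y y') := by
  induction h with
  | zero =>
    rw [map_zero, LinearMap.zero_apply, LinearMap.zero_apply]
    exact .zero
  | add_smul c f x y hf _ ih =>
    rw [map_add, map_add, map_smul, map_smul, LinearMap.add_apply, LinearMap.add_apply,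
      LinearMap.smul_apply, LinearMap.smul_apply]
    refine IsConj.add (IsConj.smul c ?_) ih
    exact h'.map (T f) (hT f hf)

variable {β : M →ₗ[ℂ] M →ₗ[ℂ] ℂ}

/-- The pairing is rational on the rational subspace. -/
def IsRat (Q : Submodule ℚ M) (β : M →ₗ[ℂ] M →ₗ[ℂ] ℂ) : Prop :=
  ∀ f ∈ Q, ∀ g ∈ Q, ∃ r : ℚ, β f g = r

theorem conj_rat {z : ℂ} (h : ∃ r : ℚ, z = r) : conj z = z := by
  obtain ⟨r, rfl⟩ := h
  exact map_ratCast (starRingEnd ℂ) r

theorem IsRat.conj_left (hβ : IsRat Q β) {f x y : M} (hf : f ∈ Q) (h : IsConj Q x y) :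
    β f y = conj (β f x) := by
  induction h with
  | zero => simp
  | add_smul c g x y hg _ ih =>
    rw [map_add, map_add, map_smul, map_smul, smul_eq_mul, smul_eq_mul, map_add, map_mul, ih,
      conj_rat (hβ f hf g hg)]

theorem IsRat.conj_pair (hβ : IsRat Q β) {x y x' y' : M} (h : IsConj Q x y)
    (h' : IsConj Q x' y') : β x y' = conj (β y x') := by
  induction h with
  | zero => simp
  | add_smul c g x y hg _ ih =>
    rw [map_add, map_add, map_smul, map_smul, LinearMap.add_apply, LinearMap.add_apply,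
      LinearMap.smul_apply, LinearMap.smul_apply, smul_eq_mul, smul_eq_mul, map_add, map_mul, ih,
      Complex.conj_conj, hβ.conj_left hg h']

theorem IsRat.unique (hβ : IsRat Q β) {x x' y y' : M} (hx : x ∈ Submodule.span ℂ (Q : Set M))
    (h : IsConj Q x' y) (h' : IsConj Q x' y') : β x y = β x y' := by
  obtain ⟨z, hz⟩ := exists_conj hx
  rw [hβ.conj_pair hz h, hβ.conj_pair hz h']

theorem symm_span (hs : ∀ f ∈ Q, ∀ g ∈ Q, β f g = β g f) {x y : M}
    (hx : x ∈ Submodule.span ℂ (Q : Set M)) (hy : y ∈ Submodule.span ℂ (Q : Set M)) :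
    β x y = β y x := by
  have h1 : ∀ f ∈ Q, ∀ y ∈ Submodule.span ℂ (Q : Set M), β f y = β y f := by
    intro f hf y hy
    induction hy using Submodule.span_induction with
    | mem g hg => exact hs f hf g hg
    | zero => simp
    | add a b _ _ ha hb => rw [map_add, map_add, LinearMap.add_apply, ha, hb]
    | smul c a _ ha => rw [map_smul, map_smul, LinearMap.smul_apply, ha]
  induction hx using Submodule.span_induction with
  | mem g hg => exact h1 g hg y hy
  | zero => simp
  | add a b _ _ ha hb => rw [map_add, map_add, LinearMap.add_apply, ha, hb]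
  | smul c a _ ha => rw [map_smul, map_smul, LinearMap.smul_apply, ha]

/-- The pairing is positive on the rational subspace. -/
def IsPos (Q : Submodule ℚ M) (β : M →ₗ[ℂ] M →ₗ[ℂ] ℂ) : Prop :=
  ∀ f ∈ Q, f ≠ 0 → 0 < (β f f).re

theorem rat_smul_mem {r : ℚ} {f : M} (hf : f ∈ Q) : ((r : ℂ) • f) ∈ Q := by
  have h1 : (r : ℂ) • f = r • f := by
    have h2 : (r : ℂ) = r • (1 : ℂ) := by rw [Rat.smul_def, mul_one]
    rw [h2, smul_assoc, one_smul]
  rw [h1]
  exact Q.smul_mem r hf

/-- Orthogonalisation over the rational numbers. -/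
theorem exists_orthogonal (hβ : IsRat Q β) (hs : ∀ f ∈ Q, ∀ g ∈ Q, β f g = β g f)
    (hp : IsPos Q β) (T : Finset M) (hT : ∀ f ∈ T, f ∈ Q) :
    ∃ S : Finset M, (∀ f ∈ S, f ∈ Q ∧ f ≠ 0) ∧ (∀ f ∈ S, ∀ g ∈ S, f ≠ g → β f g = 0) ∧
      ∀ f ∈ T, f ∈ Submodule.span ℂ (S : Set M) := by
  classical
  induction T using Finset.induction_on with
  | empty => exact ⟨∅, by simp, by simp, by simp⟩
  | insert a T _ ih =>
    obtain ⟨S, hS1, hS2, hS3⟩ := ih fun f hf => hT f (Finset.mem_insert_of_mem hf)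
    have ha : a ∈ Q := hT a (Finset.mem_insert_self a T)
    have hne : ∀ f ∈ S, β f f ≠ 0 := by
      intro f hf h
      have h1 := hp f (hS1 f hf).1 (hS1 f hf).2
      rw [h] at h1
      exact lt_irrefl _ h1
    choose! r hr using fun f (hf : f ∈ S) =>
      (show ∃ r : ℚ, β f a / β f f = r by
        obtain ⟨r1, h1⟩ := hβ f (hS1 f hf).1 a ha
        obtain ⟨r2, h2⟩ := hβ f (hS1 f hf).1 f (hS1 f hf).1
        exact ⟨r1 / r2, by rw [h1, h2]; push_cast; rfl⟩)
    let a' : M := a - ∑ f ∈ S, ((r f : ℚ) : ℂ) • f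
    have ha' : a' ∈ Q := Q.sub_mem ha (Q.sum_mem fun f hf => rat_smul_mem (hS1 f hf).1)
    have horth : ∀ g ∈ S, β g a' = 0 := by
      intro g hg
      change β g (a - ∑ f ∈ S, ((r f : ℚ) : ℂ) • f) = 0
      rw [map_sub, map_sum, Finset.sum_eq_single g]
      · rw [map_smul, smul_eq_mul, ← hr g hg, div_mul_cancel₀ _ (hne g hg), sub_self]
      · intro f hf hfg
        rw [map_smul, hS2 g hg f hf hfg.symm, smul_zero]
      · intro h
        exact absurd hg h
    have haspan : ∀ U : Submodule ℂ M, (S : Set M) ⊆ U → a' ∈ U → a ∈ U := by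
      intro U hU h1
      have h2 : a = a' + ∑ f ∈ S, ((r f : ℚ) : ℂ) • f := by
        change a = a - ∑ f ∈ S, ((r f : ℚ) : ℂ) • f + ∑ f ∈ S, ((r f : ℚ) : ℂ) • f
        rw [sub_add_cancel]
      rw [h2]
      exact U.add_mem h1 (U.sum_mem fun f hf => U.smul_mem _ (hU hf))
    by_cases h0 : a' = 0
    · refine ⟨S, hS1, hS2, fun f hf => ?_⟩
      rcases Finset.mem_insert.1 hf with rfl | hf
      · refine haspan _ Submodule.subset_span ?_
        rw [h0]
        exact zero_mem _
      · exact hS3 f hf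
    · refine ⟨insert a' S, ?_, ?_, ?_⟩
      · intro f hf
        rcases Finset.mem_insert.1 hf with rfl | hf
        · exact ⟨ha', h0⟩
        · exact hS1 f hf
      · intro f hf g hg hfg
        rcases Finset.mem_insert.1 hf with rfl | hf <;> rcases Finset.mem_insert.1 hg with rfl | hg
        · exact absurd rfl hfg
        · rw [hs _ ha' g (hS1 g hg).1]
          exact horth g hg
        · exact horth f hf
        · exact hS2 f hf g hg hfg
      · intro f hf
        rw [Finset.coe_insert]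
        rcases Finset.mem_insert.1 hf with rfl | hf
        · exact haspan _ (fun x hx => Submodule.subset_span (Set.mem_insert_of_mem _ hx))
            (Submodule.subset_span (Set.mem_insert _ _))
        · exact Submodule.span_mono (Set.subset_insert _ _) (hS3 f hf)

/-- Positivity of the hermitian extension. -/
theorem pos_of_mem (hβ : IsRat Q β) (hs : ∀ f ∈ Q, ∀ g ∈ Q, β f g = β g f)
    (hp : IsPos Q β) {x y : M} (hx : x ≠ 0) (h : IsConj Q x y) : 0 < β x y := by
  classical
  obtain ⟨T, hT1, hT2⟩ : ∃ T : Finset M, (∀ f ∈ T, f ∈ Q) ∧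
      x ∈ Submodule.span ℂ (T : Set M) := by
    obtain ⟨T, hT1, hT2⟩ := Submodule.mem_span_finite_of_mem_span h.mem
    exact ⟨T, fun f hf => hT1 hf, hT2⟩
  obtain ⟨S, hS1, hS2, hS3⟩ := exists_orthogonal hβ hs hp T hT1
  have hxS : x ∈ Submodule.span ℂ (S : Set M) := by
    have h1 : Submodule.span ℂ (T : Set M) ≤ Submodule.span ℂ (S : Set M) :=
      Submodule.span_le.2 hS3
    exact h1 hT2
  obtain ⟨c, hc⟩ := (Submodule.mem_span_finset' (s := S)).1 hxS
  let y' : M := ∑ f : {f // f ∈ S}, conj (c f) • f.1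
  have hy' : IsConj Q x y' := by
    rw [← hc]
    exact IsConj.sum _ _ _ fun f _ => (IsConj.of_mem (hS1 f.1 f.2).1).smul (c f)
  rw [hβ.unique h.mem h hy']
  have hval : β x y' = ∑ f : {f // f ∈ S}, (c f * conj (c f)) * β f.1 f.1 := by
    rw [← hc]
    change β _ (∑ f : {f // f ∈ S}, conj (c f) • f.1) = _
    rw [map_sum]
    refine Finset.sum_congr rfl fun f _ => ?_
    rw [map_smul, smul_eq_mul, map_sum, LinearMap.sum_apply, Finset.sum_eq_single f]
    · rw [map_smul, LinearMap.smul_apply, smul_eq_mul, ← mul_assoc, mul_comm (c f)]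
    · intro g _ hgf
      rw [map_smul, LinearMap.smul_apply, hS2 g.1 g.2 f.1 f.2 (fun h => hgf (Subtype.ext h)),
        smul_zero]
    · intro h
      exact absurd (Finset.mem_univ f) h
  rw [hval]
  have hterm : ∀ f : {f // f ∈ S}, 0 ≤ (c f * conj (c f)) * β f.1 f.1 := by
    intro f
    obtain ⟨r, hr⟩ := hβ f.1 (hS1 f.1 f.2).1 f.1 (hS1 f.1 f.2).1
    have h1 := hp f.1 (hS1 f.1 f.2).1 (hS1 f.1 f.2).2
    rw [hr] at h1 ⊢
    rw [Complex.mul_conj]
    have h2 : ((Complex.normSq (c f) : ℝ) : ℂ) * ((r : ℚ) : ℂ) =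
        ((Complex.normSq (c f) * (r : ℝ) : ℝ) : ℂ) := by
      push_cast
      rfl
    rw [h2, Complex.zero_le_real]
    have h3 : 0 < (r : ℝ) := by simpa using h1
    exact mul_nonneg (Complex.normSq_nonneg _) h3.le
  obtain ⟨f, hf⟩ : ∃ f : {f // f ∈ S}, c f ≠ 0 := by
    by_contra hcon
    push Not at hcon
    apply hx
    rw [← hc]
    exact Finset.sum_eq_zero fun f _ => by rw [hcon f, zero_smul]
  refine Finset.sum_pos' (fun f _ => hterm f) ⟨f, Finset.mem_univ f, ?_⟩
  obtain ⟨r, hr⟩ := hβ f.1 (hS1 f.1 f.2).1 f.1 (hS1 f.1 f.2).1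
  have h1 := hp f.1 (hS1 f.1 f.2).1 (hS1 f.1 f.2).2
  rw [hr] at h1 ⊢
  rw [Complex.mul_conj]
  have h2 : ((Complex.normSq (c f) : ℝ) : ℂ) * ((r : ℚ) : ℂ) =
      ((Complex.normSq (c f) * (r : ℝ) : ℝ) : ℂ) := by
    push_cast
    rfl
  rw [h2, Complex.zero_lt_real]
  have h3 : 0 < (r : ℝ) := by simpa using h1
  exact mul_pos (Complex.normSq_pos.2 hf) h3

open Classical in
/-- The hermitian extension of the pairing. -/
def herm (Q : Submodule ℚ M) (β : M →ₗ[ℂ] M →ₗ[ℂ] ℂ) (x x' : M) : ℂ :=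
  if h : ∃ y, IsConj Q x' y then β x h.choose else 0

theorem IsRat.herm_eq (hβ : IsRat Q β) {x x' y : M} (hx : x ∈ Submodule.span ℂ (Q : Set M))
    (h : IsConj Q x' y) : herm Q β x x' = β x y := by
  have h1 : ∃ y, IsConj Q x' y := ⟨y, h⟩
  rw [herm, dif_pos h1]
  exact hβ.unique hx h1.choose_spec h

/-- The Gram matrix. -/
def gram {n : Type*} (Q : Submodule ℚ M) (β : M →ₗ[ℂ] M →ₗ[ℂ] ℂ) (v : n → M) : Matrix n n ℂ :=
  Matrix.of fun i j => herm Q β (v i) (v j)

theorem IsRat.gram_mul (hβ : IsRat Q β) {n : Type*} [Fintype n] {v : n → M}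
    (hv : ∀ i, v i ∈ Submodule.span ℂ (Q : Set M)) (c : n → ℂ) {y : M}
    (h : IsConj Q (∑ i, conj (c i) • v i) y) :
    star c ⬝ᵥ (gram Q β v).mulVec c = β (∑ i, conj (c i) • v i) y := by
  choose w hw using fun i => exists_conj (hv i)
  have h1 : IsConj Q (∑ i, conj (c i) • v i) (∑ i, c i • w i) := by
    refine IsConj.sum _ _ _ fun i _ => ?_
    have h2 := (hw i).smul (conj (c i))
    rwa [Complex.conj_conj] at h2
  have h3 : β (∑ i, conj (c i) • v i) = ∑ i, conj (c i) • β (v i) := by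
    rw [map_sum]
    exact Finset.sum_congr rfl fun i _ => map_smul _ _ _
  rw [hβ.unique h1.mem h h1, h3, LinearMap.sum_apply, dotProduct]
  refine Finset.sum_congr rfl fun i _ => ?_
  rw [LinearMap.smul_apply, map_sum, Matrix.mulVec, dotProduct, smul_eq_mul]
  congr 1
  refine Finset.sum_congr rfl fun j _ => ?_
  rw [map_smul, smul_eq_mul, mul_comm]
  congr 1
  exact hβ.herm_eq (hv i) (hw j)

theorem gram_posDef (hβ : IsRat Q β) (hs : ∀ f ∈ Q, ∀ g ∈ Q, β f g = β g f)
    (hp : IsPos Q β) {n : Type*} [Fintype n] {v : n → M}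
    (hv : ∀ i, v i ∈ Submodule.span ℂ (Q : Set M)) (hli : LinearIndependent ℂ v) :
    (gram Q β v).PosDef := by
  rw [Matrix.posDef_iff_dotProduct_mulVec]
  constructor
  · ext i j
    rw [Matrix.conjTranspose_apply]
    change star (herm Q β (v j) (v i)) = herm Q β (v i) (v j)
    obtain ⟨w, hw⟩ := exists_conj (hv i)
    obtain ⟨w', hw'⟩ := exists_conj (hv j)
    rw [hβ.herm_eq (hv j) hw, hβ.herm_eq (hv i) hw', hβ.conj_pair hw hw',
      symm_span hs (hv j) hw.symm.mem]
    rfl
  · intro c hc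
    obtain ⟨y, hy⟩ := exists_conj (Q := Q) (x := ∑ i, conj (c i) • v i)
      (Submodule.sum_mem _ fun i _ => Submodule.smul_mem _ _ (hv i))
    rw [hβ.gram_mul hv c hy]
    refine pos_of_mem hβ hs hp (fun h0 => hc ?_) hy
    have h1 := Fintype.linearIndependent_iff.1 hli _ h0
    funext i
    have h2 := congrArg conj (h1 i)
    rw [Complex.conj_conj, map_zero] at h2
    exact h2

theorem pos_of_gram (hβ : IsRat Q β) {n : Type*} [Fintype n] {v : n → M}
    (hv : ∀ i, v i ∈ Submodule.span ℂ (Q : Set M)) (hG : (gram Q β v).PosDef) (c : n → ℂ)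
    (hc : c ≠ 0) {y : M} (h : IsConj Q (∑ i, c i • v i) y) : 0 < β (∑ i, c i • v i) y := by
  have h1 : (fun i => conj (c i)) ≠ 0 := by
    intro h0
    apply hc
    funext i
    have h2 := congrArg conj (congrFun h0 i)
    simpa using h2
  have h2 : ∑ i, c i • v i = ∑ i, conj (conj (c i)) • v i := by
    refine Finset.sum_congr rfl fun i _ => ?_
    rw [Complex.conj_conj]
  rw [h2] at h ⊢
  rw [← hβ.gram_mul hv (fun i => conj (c i)) h]
  exact (Matrix.posDef_iff_dotProduct_mulVec.1 hG).2 h1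

end

end Pool.Agent.Y137.HT
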