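import Pool.Agent.Y137.BG.GeoDefs

/-!
# Algebraic classes with rational coefficients on products of polarized varieties
-/

namespace Pool.Agent.Y137.HT

open Sum Pool.Agent.Y137.BG

variable {p : ℕ} [Fact p.Prime] {𝒳 : Type} (H : 𝒳 → Frob)

/-- A cohomology class on the product of the objects `Y k` (abelian varieties, or members of the class
`𝒳` of varieties), more precisely an element of the tensor product of the cohomology groups of the
`Y k`, given by its coordinates with respect to the tensor products of the eigenvectors of the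
Frobenius endomorphisms. -/
abbrev Tens {κ : Type} (Y : κ → AbVar p ⊕ 𝒳) : Type := (∀ k, (frob H (Y k)).ι) → ℂ

/-- The matrix of a bilinear form on the cohomology group of the object `Y`. -/
abbrev Form (Y : AbVar p ⊕ 𝒳) : Type := (frob H Y).ι → (frob H Y).ι → ℂ

open Classical in
/-- The bilinear form on the tensor product of the cohomology groups of the `Y k` given by bilinear
forms on the factors. -/
noncomputable def pairing {κ : Type} [Fintype κ] {Y : κ → AbVar p ⊕ 𝒳}
    (G : ∀ k, Form H (Y k)) (φ ψ : Tens H Y) : ℂ :=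
  ∑ i : ∀ k, (frob H (Y k)).ι, ∑ j : ∀ k, (frob H (Y k)).ι, φ i * (∏ k, G k (i k) (j k)) * ψ j

open Classical in
/-- The partial pairing of a class on the product of all `Y k`, with `k` in `κ₁` or `κ₂`, and of a
class on the product of the `Y k` with `k` in `κ₂`. -/
noncomputable def slant {κ₁ κ₂ : Type} [Fintype κ₂] {Y : κ₁ ⊕ κ₂ → AbVar p ⊕ 𝒳}
    (G : ∀ k, Form H (Y (inr k))) (φ : Tens H Y) (ψ : Tens H fun k => Y (inr k)) :
    Tens H fun k => Y (inl k) :=
  fun i => ∑ j : ∀ k, (frob H (Y (inr k))).ι, ∑ l : ∀ k, (frob H (Y (inr k))).ι,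
    φ (Sum.rec i j) * (∏ k, G k (j k) (l k)) * ψ l

/-- Tate classes: over some finite extension with `p ^ b` elements of the ground fields, the Frobenius
multiplies them by `(p ^ b) ^ m`, where `2 m` is the degree. -/
def IsTate {κ : Type} [Fintype κ] (Y : κ → AbVar p ⊕ 𝒳) (φ : Tens H Y) : Prop :=
  ∃ (s : κ → ℕ) (b m : ℕ), 0 < b ∧ (∀ k, (frob H (Y k)).a * s k = b) ∧
    ∑ k, (frob H (Y k)).w = 2 * m ∧
    ∀ i, φ i ≠ 0 → ∏ k, (frob H (Y k)).eig (i k) ^ s k = (p : ℂ) ^ (b * m)

/-- The cohomology classes of algebraic cycles with rational coefficients, and the polarizations. The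
object `Y` is an abelian variety `A`, with the cohomology group in degree one (any polarizations are
allowed), or a member of `𝒳`, that is a smooth projective variety with an ample divisor and a degree
`w`, which satisfies the Lefschetz standard conjecture; its cohomology group is the primitive part of
the cohomology in degree `w`. The bilinear form of a polarization with divisor `D` on a variety of
dimension `d` is `(-1) ^ (w * (w - 1) / 2)` times the intersection number of `x * y * D ^ (d - w)`. -/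
structure CycleData (p : ℕ) [Fact p.Prime] {𝒳 : Type} (H : 𝒳 → Frob) where
  /-- The classes of algebraic cycles with rational coefficients in the tensor product of the
  cohomology groups of the objects `Y k`. -/
  Q : ∀ {κ : Type} (Y : κ → AbVar p ⊕ 𝒳), Submodule ℚ (Tens H Y)
  /-- The bilinear forms of the polarizations. -/
  Pol : ∀ Y : AbVar p ⊕ 𝒳, Set (Form H Y)

variable {H} (𝒮 : CycleData p H)

/-- The Tate conjecture for the product of the `Y k`, over all finite fields, for the classes in the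
tensor product of the given cohomology groups. -/
def Tate {κ : Type} [Fintype κ] (Y : κ → AbVar p ⊕ 𝒳) : Prop :=
  ∀ φ, IsTate H Y φ → φ ∈ Submodule.span ℂ (𝒮.Q Y : Set (Tens H Y))

/-- The standard conjecture of Hodge type for the product of the polarized varieties `Y k`, for the
classes in the tensor product of the given (primitive) cohomology groups: the intersection form is
positive on the classes of algebraic cycles with rational coefficients which are not numerically
trivial. -/
def Hodge {κ : Type} [Fintype κ] (Y : κ → AbVar p ⊕ 𝒳) : Prop :=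
  ∀ G : ∀ k, Form H (Y k), (∀ k, G k ∈ 𝒮.Pol (Y k)) → ∀ φ ∈ 𝒮.Q Y,
    (∃ ψ ∈ 𝒮.Q Y, pairing H G φ ψ ≠ 0) → 0 < (pairing H G φ φ).re

/-- Homological and numerical equivalence coincide for the algebraic cycles in the tensor product of the
given cohomology groups of the `Y k`. -/
def HomNum {κ : Type} [Fintype κ] (Y : κ → AbVar p ⊕ 𝒳) : Prop :=
  ∀ G : ∀ k, Form H (Y k), (∀ k, G k ∈ 𝒮.Pol (Y k)) → ∀ φ ∈ 𝒮.Q Y, φ ≠ 0 →
    ∃ ψ ∈ 𝒮.Q Y, pairing H G φ ψ ≠ 0

/-- The varieties are projective. -/
def HasPol : Prop := ∀ Y, (𝒮.Pol Y).Nonempty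

/-- The bilinear forms are nondegenerate (hard Lefschetz theorem and Poincaré duality). -/
def Nondegenerate : Prop :=
  ∀ Y, ∀ G ∈ 𝒮.Pol Y, ∀ x : (frob H Y).ι → ℂ, (∀ j, ∑ i, x i * G i j = 0) → x = 0

/-- The bilinear forms are compatible with the Frobenius endomorphism. -/
def Equivariant : Prop :=
  ∀ Y, ∀ G ∈ 𝒮.Pol Y, ∀ i j, G i j ≠ 0 →
    (frob H Y).eig i * (frob H Y).eig j = (p : ℂ) ^ ((frob H Y).a * (frob H Y).w)

/-- The classes of algebraic cycles are Tate classes. -/
def CyclesTate : Prop :=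
  ∀ {κ : Type} [Fintype κ] (Y : κ → AbVar p ⊕ 𝒳), ∀ φ ∈ 𝒮.Q Y, φ ≠ 0 → IsTate H Y φ

/-- The graphs of the Frobenius endomorphisms of the factors act on the algebraic cycles. -/
def FrobStable : Prop :=
  ∀ {κ : Type} (Y : κ → AbVar p ⊕ 𝒳) (k : κ), ∀ φ ∈ 𝒮.Q Y,
    (fun i => (frob H (Y k)).eig (i k) * φ i) ∈ 𝒮.Q Y

/-- Exterior products of algebraic cycles are algebraic cycles. -/
def ProdStable : Prop :=
  ∀ {κ κ₁ κ₂ : Type} (e : κ₁ ⊕ κ₂ ≃ κ) (Y : κ → AbVar p ⊕ 𝒳),
    ∀ φ₁ ∈ 𝒮.Q (fun k => Y (e (inl k))), ∀ φ₂ ∈ 𝒮.Q (fun k => Y (e (inr k))),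
    (fun i => φ₁ (fun k => i (e (inl k))) * φ₂ (fun k => i (e (inr k)))) ∈ 𝒮.Q Y

/-- Algebraic cycles can be pushed forward to the product of some of the factors. -/
def SlantStable : Prop :=
  ∀ {κ₁ κ₂ : Type} [Fintype κ₂] (Y : κ₁ ⊕ κ₂ → AbVar p ⊕ 𝒳)
    (G : ∀ k, Form H (Y (inr k))), (∀ k, G k ∈ 𝒮.Pol (Y (inr k))) →
    ∀ φ ∈ 𝒮.Q Y, ∀ ψ ∈ 𝒮.Q (fun k => Y (inr k)), slant H G φ ψ ∈ 𝒮.Q (fun k => Y (inl k))

/-- The intersection numbers are rational. -/
def Rational : Prop :=
  ∀ {κ : Type} [Fintype κ] (Y : κ → AbVar p ⊕ 𝒳) (G : ∀ k, Form H (Y k)),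
    (∀ k, G k ∈ 𝒮.Pol (Y k)) → ∀ φ ∈ 𝒮.Q Y, ∀ ψ ∈ 𝒮.Q Y, ∃ r : ℚ, pairing H G φ ψ = r

/-- The intersection form is symmetric. -/
def Symmetric : Prop :=
  ∀ {κ : Type} [Fintype κ] (Y : κ → AbVar p ⊕ 𝒳) (G : ∀ k, Form H (Y k)),
    (∀ k, G k ∈ 𝒮.Pol (Y k)) → ∀ φ ∈ 𝒮.Q Y, ∀ ψ ∈ 𝒮.Q Y, pairing H G φ ψ = pairing H G ψ φ

/-- The theorem of Tate: the Tate classes in the tensor product of the first cohomology groups of two
abelian varieties are linear combinations of classes of divisors; and the theorem of Weil: the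
standard conjecture of Hodge type for these divisors. -/
def TateWeil : Prop :=
  ∀ Y : Bool → AbVar p ⊕ 𝒳, (∀ c, (Y c).isLeft) → Tate 𝒮 Y ∧ Hodge 𝒮 Y

/-- The formal properties of the classes of algebraic cycles and of the polarizations. -/
structure CycleSystem (p : ℕ) [Fact p.Prime] {𝒳 : Type} (H : 𝒳 → Frob) extends
    CycleData p H where
  projective : HasPol toCycleData
  nondegenerate : Nondegenerate toCycleData
  equivariant : Equivariant toCycleData
  tate : CyclesTate toCycleData
  frobenius : FrobStable toCycleData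
  prod : ProdStable toCycleData
  slant : SlantStable toCycleData
  rational : Rational toCycleData
  symmetric : Symmetric toCycleData
  tate_weil : TateWeil toCycleData

/-- The Tate conjecture for a product. -/
abbrev TateConj (𝒮 : CycleSystem p H) {κ : Type} [Fintype κ] (Y : κ → AbVar p ⊕ 𝒳) : Prop :=
  Tate 𝒮.toCycleData Y

/-- The standard conjecture of Hodge type for a product. -/
abbrev HodgeType (𝒮 : CycleSystem p H) {κ : Type} [Fintype κ] (Y : κ → AbVar p ⊕ 𝒳) : Prop :=
  Hodge 𝒮.toCycleData Y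

/-- The standard conjecture `D` for a product. -/
abbrev HomEqNum (𝒮 : CycleSystem p H) {κ : Type} [Fintype κ] (Y : κ → AbVar p ⊕ 𝒳) : Prop :=
  HomNum 𝒮.toCycleData Y

end Pool.Agent.Y137.HT
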