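import Pool.Agent.Y137.BG.GeoD
import Pool.Agent.Y137.HT.Abs
import Pool.Agent.Y137.HT.Defs

/-!
# Pairings of tensors
-/

set_option linter.unusedSectionVars false

namespace Pool.Agent.Y137.HT

open Sum Pool.Agent.Y137.BG
open scoped ComplexConjugate ComplexOrder

noncomputable section

variable {p : ℕ} [Fact p.Prime] {𝒳 : Type} {H : 𝒳 → Frob}

section

variable {κ : Type} [Fintype κ] {Y : κ → AbVar p ⊕ 𝒳}

/-- The pairing as a bilinear map. -/
def bil (G : ∀ k, Form H (Y k)) : Tens H Y →ₗ[ℂ] Tens H Y →ₗ[ℂ] ℂ :=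
  LinearMap.mk₂ ℂ (pairing H G)
    (by
      intro a b c
      simp only [pairing, Pi.add_apply, add_mul, Finset.sum_add_distrib])
    (by
      intro c a b
      simp only [pairing, Pi.smul_apply, smul_eq_mul, Finset.mul_sum, mul_assoc])
    (by
      intro a b c
      simp only [pairing, Pi.add_apply, mul_add, Finset.sum_add_distrib])
    (by
      intro c a b
      simp only [pairing, Pi.smul_apply, smul_eq_mul, Finset.mul_sum]
      refine Finset.sum_congr rfl fun i _ => Finset.sum_congr rfl fun j _ => ?_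
      ring)

theorem bil_apply (G : ∀ k, Form H (Y k)) (φ ψ : Tens H Y) : bil G φ ψ = pairing H G φ ψ := rfl

open Classical in
theorem bil_single (G : ∀ k, Form H (Y k)) (φ : Tens H Y) (j : ∀ k, (frob H (Y k)).ι) :
    bil G φ (Pi.single j 1) = ∑ i, φ i * ∏ k, G k (i k) (j k) := by
  rw [bil_apply, pairing]
  refine Finset.sum_congr rfl fun i _ => ?_
  rw [Finset.sum_eq_single j]
  · rw [Pi.single_eq_same, mul_one]
  · intro l _ hl
    rw [Pi.single_eq_of_ne hl, mul_zero]
  · intro h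
    exact absurd (Finset.mem_univ j) h

theorem exists_inverse {n : Type} [Fintype n] [DecidableEq n] (G : n → n → ℂ)
    (hG : ∀ x : n → ℂ, (∀ j, ∑ i, x i * G i j = 0) → x = 0) :
    ∃ G' : n → n → ℂ, ∀ i l, ∑ j, G i j * G' j l = if i = l then 1 else 0 := by
  have h1 : Function.Injective (Matrix.of G).vecMul := by
    intro x y hxy
    have h2 := hG (x - y) (fun j => by
      have h3 := congrFun hxy j
      simp only [Matrix.vecMul, dotProduct, Matrix.of_apply] at h3
      simp only [Pi.sub_apply, sub_mul, Finset.sum_sub_distrib]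
      rw [h3, sub_self])
    exact sub_eq_zero.1 h2
  have h2 : IsUnit (Matrix.of G) := Matrix.vecMul_injective_iff_isUnit.1 h1
  refine ⟨fun i l => (Matrix.of G)⁻¹ i l, fun i l => ?_⟩
  have h3 : Matrix.of G * (Matrix.of G)⁻¹ = 1 :=
    Matrix.mul_nonsing_inv _ ((Matrix.isUnit_iff_isUnit_det _).1 h2)
  have h4 := congrFun (congrFun h3 i) l
  rw [Matrix.mul_apply, Matrix.one_apply] at h4
  exact h4

open Classical in
theorem tensor_nondegenerate (G : ∀ k, Form H (Y k))
    (hG : ∀ k, ∀ x : (frob H (Y k)).ι → ℂ, (∀ j, ∑ i, x i * G k i j = 0) → x = 0)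
    (φ : Tens H Y)
    (hφ : ∀ j : ∀ k, (frob H (Y k)).ι, ∑ i, φ i * ∏ k, G k (i k) (j k) = 0) : φ = 0 := by
  choose G' hG' using fun k => exists_inverse (G k) (hG k)
  have hps : ∀ i l : ∀ k, (frob H (Y k)).ι, ∑ j : ∀ k, (frob H (Y k)).ι,
      ∏ k, (G k (i k) (j k) * G' k (j k) (l k)) =
      ∏ k, ∑ j, G k (i k) j * G' k j (l k) := by
    intro i l
    rw [Finset.prod_univ_sum, Fintype.piFinset_univ]
  funext l
  have h1 : ∑ j : ∀ k, (frob H (Y k)).ι, (∑ i, φ i * ∏ k, G k (i k) (j k)) *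
      ∏ k, G' k (j k) (l k) = φ l := by
    simp only [Finset.sum_mul]
    rw [Finset.sum_comm, Finset.sum_eq_single l]
    · have h2 : ∀ j : ∀ k, (frob H (Y k)).ι, φ l * (∏ k, G k (l k) (j k)) *
          ∏ k, G' k (j k) (l k) = φ l * ∏ k, (G k (l k) (j k) * G' k (j k) (l k)) := by
        intro j
        rw [Finset.prod_mul_distrib, mul_assoc]
      simp only [h2]
      rw [← Finset.mul_sum, hps]
      simp [hG']
    · intro i _ hi
      have h2 : ∀ j : ∀ k, (frob H (Y k)).ι, φ i * (∏ k, G k (i k) (j k)) *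
          ∏ k, G' k (j k) (l k) = φ i * ∏ k, (G k (i k) (j k) * G' k (j k) (l k)) := by
        intro j
        rw [Finset.prod_mul_distrib, mul_assoc]
      simp only [h2]
      rw [← Finset.mul_sum, hps]
      obtain ⟨k, hk⟩ := Function.ne_iff.1 hi
      rw [Finset.prod_eq_zero (Finset.mem_univ k), mul_zero]
      rw [hG', if_neg hk]
    · intro h
      exact absurd (Finset.mem_univ l) h
  rw [← h1]
  exact Finset.sum_eq_zero fun j _ => by rw [hφ j, zero_mul]

end

section

variable {κ κ₁ κ₂ : Type} [Fintype κ] [Fintype κ₁] [Fintype κ₂] (e : κ₁ ⊕ κ₂ ≃ κ)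
  {Y : κ → AbVar p ⊕ 𝒳}

/-- The exterior product as a bilinear map. -/
def ext : Tens H (fun k => Y (e (inl k))) →ₗ[ℂ] Tens H (fun k => Y (e (inr k))) →ₗ[ℂ] Tens H Y :=
  LinearMap.mk₂ ℂ (fun φ₁ φ₂ i => φ₁ (fun k => i (e (inl k))) * φ₂ (fun k => i (e (inr k))))
    (by
      intro a b c
      funext i
      simp only [Pi.add_apply, add_mul])
    (by
      intro c a b
      funext i
      simp only [Pi.smul_apply, smul_eq_mul, mul_assoc])
    (by
      intro a b c
      funext i
      simp only [Pi.add_apply, mul_add])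
    (by
      intro c a b
      funext i
      simp only [Pi.smul_apply, smul_eq_mul]
      ring)

theorem ext_apply (φ₁ : Tens H fun k => Y (e (inl k))) (φ₂ : Tens H fun k => Y (e (inr k)))
    (i : ∀ k, (frob H (Y k)).ι) :
    ext e φ₁ φ₂ i = φ₁ (fun k => i (e (inl k))) * φ₂ (fun k => i (e (inr k))) := rfl

/-- The multi-indices. -/
def idxEquiv : (∀ k, (frob H (Y k)).ι) ≃
    (∀ k, (frob H (Y (e (inl k)))).ι) × (∀ k, (frob H (Y (e (inr k)))).ι) :=
  (Equiv.piCongrLeft (fun k => (frob H (Y k)).ι) e).symm.trans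
    (Equiv.sumPiEquivProdPi fun k => (frob H (Y (e k))).ι)

theorem idxEquiv_fst (i : ∀ k, (frob H (Y k)).ι) :
    (idxEquiv e i).1 = fun k => i (e (inl k)) := rfl

theorem idxEquiv_snd (i : ∀ k, (frob H (Y k)).ι) :
    (idxEquiv e i).2 = fun k => i (e (inr k)) := rfl

theorem bil_ext (G : ∀ k, Form H (Y k)) (x₁ y₁ : Tens H fun k => Y (e (inl k)))
    (x₂ y₂ : Tens H fun k => Y (e (inr k))) :
    bil G (ext e x₁ x₂) (ext e y₁ y₂) =
      bil (fun k => G (e (inl k))) x₁ y₁ * bil (fun k => G (e (inr k))) x₂ y₂ := by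
  classical
  simp only [bil_apply, pairing, ext_apply]
  have hprod : ∀ i j : ∀ k, (frob H (Y k)).ι, ∏ k, G k (i k) (j k) =
      (∏ k, G (e (inl k)) (i (e (inl k))) (j (e (inl k)))) *
        ∏ k, G (e (inr k)) (i (e (inr k))) (j (e (inr k))) := by
    intro i j
    rw [← Fintype.prod_equiv e (fun k => G (e k) (i (e k)) (j (e k))) _ fun _ => rfl,
      Fintype.prod_sum_type]
  let A : ((∀ k, (frob H (Y (e (inl k)))).ι) × (∀ k, (frob H (Y (e (inr k)))).ι)) →
      ((∀ k, (frob H (Y (e (inl k)))).ι) × (∀ k, (frob H (Y (e (inr k)))).ι)) → ℂ := fun u v =>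
    (x₁ u.1 * (∏ k, G (e (inl k)) (u.1 k) (v.1 k)) * y₁ v.1) *
      (x₂ u.2 * (∏ k, G (e (inr k)) (u.2 k) (v.2 k)) * y₂ v.2)
  have h1 : ∀ i j : ∀ k, (frob H (Y k)).ι,
      x₁ (fun k => i (e (inl k))) * x₂ (fun k => i (e (inr k))) * (∏ k, G k (i k) (j k)) *
        (y₁ (fun k => j (e (inl k))) * y₂ (fun k => j (e (inr k)))) =
      A (idxEquiv e i) (idxEquiv e j) := by
    intro i j
    rw [hprod]
    change _ = (x₁ (fun k => i (e (inl k))) *
      (∏ k, G (e (inl k)) (i (e (inl k))) (j (e (inl k)))) * y₁ (fun k => j (e (inl k)))) *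
      (x₂ (fun k => i (e (inr k))) *
      (∏ k, G (e (inr k)) (i (e (inr k))) (j (e (inr k)))) * y₂ (fun k => j (e (inr k))))
    ring
  have h2 : ∑ i : ∀ k, (frob H (Y k)).ι, ∑ j : ∀ k, (frob H (Y k)).ι,
      x₁ (fun k => i (e (inl k))) * x₂ (fun k => i (e (inr k))) * (∏ k, G k (i k) (j k)) *
        (y₁ (fun k => j (e (inl k))) * y₂ (fun k => j (e (inr k)))) = ∑ u, ∑ v, A u v := by
    refine Fintype.sum_equiv (idxEquiv e) _ _ fun i => ?_
    exact Fintype.sum_equiv (idxEquiv e) _ _ fun j => h1 i j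
  rw [h2, Fintype.sum_prod_type, Finset.sum_mul_sum]
  refine Finset.sum_congr rfl fun u₁ _ => Finset.sum_congr rfl fun u₂ _ => ?_
  rw [Fintype.sum_prod_type, Finset.sum_mul_sum]

theorem ext_single [DecidableEq κ] [DecidableEq κ₁] [DecidableEq κ₂]
    (i : ∀ k, (frob H (Y k)).ι) [DecidableEq (∀ k, (frob H (Y k)).ι)]
    [DecidableEq (∀ k, (frob H (Y (e (inl k)))).ι)]
    [DecidableEq (∀ k, (frob H (Y (e (inr k)))).ι)] :
    ext e (Pi.single (fun k => i (e (inl k))) (1 : ℂ) : Tens H fun k => Y (e (inl k)))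
      (Pi.single (fun k => i (e (inr k))) (1 : ℂ) : Tens H fun k => Y (e (inr k))) =
      (Pi.single i 1 : Tens H Y) := by
  funext j
  rw [ext_apply]
  by_cases h : j = i
  · subst h
    rw [Pi.single_eq_same, Pi.single_eq_same, Pi.single_eq_same, mul_one]
  · rw [Pi.single_eq_of_ne h]
    by_cases h1 : (fun k => j (e (inl k))) = fun k => i (e (inl k))
    · have h2 : (fun k => j (e (inr k))) ≠ fun k => i (e (inr k)) := by
        intro h2
        apply h
        funext k
        obtain ⟨k, rfl⟩ := e.surjective k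
        rcases k with k | k
        · exact congrFun h1 k
        · exact congrFun h2 k
      rw [Pi.single_eq_of_ne h2, mul_zero]
    · rw [Pi.single_eq_of_ne h1, zero_mul]

end

section

variable {κ₁ κ₂ : Type} [Fintype κ₁] [Fintype κ₂] {Y : κ₁ ⊕ κ₂ → AbVar p ⊕ 𝒳}

/-- The slant product as a bilinear map. -/
def sl (G : ∀ k, Form H (Y (inr k))) :
    Tens H Y →ₗ[ℂ] Tens H (fun k => Y (inr k)) →ₗ[ℂ] Tens H fun k => Y (inl k) :=
  LinearMap.mk₂ ℂ (slant H G)
    (by
      intro a b c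
      funext i
      simp only [slant, Pi.add_apply, add_mul, Finset.sum_add_distrib])
    (by
      intro c a b
      funext i
      simp only [slant, Pi.smul_apply, smul_eq_mul, Finset.mul_sum, mul_assoc])
    (by
      intro a b c
      funext i
      simp only [slant, Pi.add_apply, mul_add, Finset.sum_add_distrib])
    (by
      intro c a b
      funext i
      simp only [slant, Pi.smul_apply, smul_eq_mul, Finset.mul_sum]
      refine Finset.sum_congr rfl fun i _ => Finset.sum_congr rfl fun j _ => ?_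
      ring)

theorem sl_ext (G : ∀ k, Form H (Y (inr k))) (x₁ : Tens H fun k => Y (inl k))
    (x₂ y₂ : Tens H fun k => Y (inr k)) :
    sl G (ext (Equiv.refl (κ₁ ⊕ κ₂)) x₁ x₂) y₂ = bil G x₂ y₂ • x₁ := by
  classical
  funext i
  rw [Pi.smul_apply, smul_eq_mul, bil_apply, pairing, Finset.sum_mul]
  change slant H G (ext (Equiv.refl (κ₁ ⊕ κ₂)) x₁ x₂) y₂ i = _
  rw [slant]
  refine Finset.sum_congr rfl fun j _ => ?_
  rw [Finset.sum_mul]
  refine Finset.sum_congr rfl fun l _ => ?_
  change x₁ i * x₂ j * _ * _ = _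
  ring

end

end

end Pool.Agent.Y137.HT
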