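import Pool.Agent.Y137.HT.Small

/-!
# The standard conjecture of Hodge type for products of any number of varieties with bounded Betti
numbers
-/

set_option linter.unusedSectionVars false

namespace Pool.Agent.Y137.HT

open Sum Polynomial Pool.Agent.Y137.BG
open scoped ComplexConjugate ComplexOrder

noncomputable section

variable {p : ℕ} [Fact p.Prime] {𝒳 : Type} {H : 𝒳 → Frob} (𝒮 : CycleSystem p H)

/-- Pairs of dual eigenvectors on two abelian varieties. -/
theorem posW_pair (L : Bool → Letter p H) (hL : ∀ c, (L c).1.isLeft) (s : Bool → ℕ) (b : ℕ)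
    (hb : 0 < b) (hs : ∀ c, (L c).a * s c = b)
    (hx : (L true).x ^ s true * (L false).x ^ s false = (p : ℂ) ^ b) : PosW 𝒮 L := by
  refine posW_of_conj 𝒮 L (𝒮.tate_weil _ hL).1 (𝒮.tate_weil _ hL).2 s b 1 hb hs ?_ ?_
  · rw [Fintype.sum_bool]
    have hw : ∀ c, (L c).w = 1 := by
      intro c
      obtain ⟨A, i, hA⟩ := abVar_of_isLeft (L c) (hL c)
      rw [hA]
      rfl
    rw [hw, hw]
  · rw [Fintype.prod_bool, hx, mul_one]

/-- The eigenvalues of abelian varieties are stable under complex conjugation. -/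
theorem exists_dual (l : Letter p H) (hl : l.1.isLeft) :
    ∃ l' : Letter p H, l'.1 = l.1 ∧ l'.x = conj l.x := by
  obtain ⟨A, i, rfl⟩ := abVar_of_isLeft l hl
  have h1 : conj (i.2.1 : ℂ) ∈ (minpoly ℚ (A.π i.1)).rootSet ℂ := by
    have h2 := i.2.1.2
    rw [mem_rootSet] at h2 ⊢
    refine ⟨h2.1, ?_⟩
    have h3 := congrArg conj h2.2
    rw [map_zero] at h3
    rw [← h3]
    have h4 := aeval_algHom_apply (Complex.conjAe.toAlgHom.restrictScalars ℚ) (i.2.1 : ℂ)
      (minpoly ℚ (A.π i.1))
    exact h4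
  exact ⟨⟨inl A, ⟨i.1, ⟨_, h1⟩, i.2.2⟩⟩, rfl, rfl⟩

theorem norm_left (l : Letter p H) (hl : l.1.isLeft) : ‖l.x‖ ^ 2 = (p : ℝ) ^ l.a := by
  obtain ⟨A, i, rfl⟩ := abVar_of_isLeft l hl
  exact frob_weil A i

/-- Replace one letter. -/
theorem posW_replace {κ : Type} [Fintype κ] (L L' : κ → Letter p H) (k₀ : κ)
    (h : ∀ k, k ≠ k₀ → L k = L' k) (hrel : Rel (L k₀) (L' k₀)) (hL' : PosW 𝒮 L') : PosW 𝒮 L := by
  classical
  rcases hrel with heq | ⟨A, A', i, i', s, t, hA, hA', hs, ht, hst, heig⟩
  · have h1 : L = L' := by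
      funext k
      by_cases hk : k = k₀
      · rw [hk, heq]
      · exact h k hk
    rw [h1]
    exact hL'
  · have hl : (L k₀).1.isLeft := by rw [hA]; rfl
    have hl' : (L' k₀).1.isLeft := by rw [hA']; rfl
    obtain ⟨m, hm1, hm2⟩ := exists_dual (L' k₀) hl'
    have hml : m.1.isLeft := by rw [hm1]; exact hl'
    have hma : m.a = (L' k₀).a := by
      change (frob H m.1).a = (frob H (L' k₀).1).a
      rw [hm1]
    have ha : (L k₀).a = A.a := by rw [hA]; rfl
    have ha' : (L' k₀).a = A'.a := by rw [hA']; rfl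
    have hx : (L k₀).x ^ s = (L' k₀).x ^ t := by
      rw [hA, hA']
      exact heig
    have hdual : ∀ u : ℕ, (L' k₀).x ^ u * m.x ^ u = (p : ℂ) ^ ((L' k₀).a * u) := by
      intro u
      rw [hm2, ← mul_pow, Complex.mul_conj, Complex.normSq_eq_norm_sq, norm_left _ hl', pow_mul]
      push_cast
      rfl
    -- the word `L` together with two more letters
    let Z : κ ⊕ Bool → Letter p H := Sum.elim L fun c => bif c then L' k₀ else m
    let f : Bool ⊕ κ → κ ⊕ Bool := Sum.elim (fun c => bif c then inr false else inl k₀)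
      fun k => if k = k₀ then inr true else inl k
    have hf : Function.Bijective f := by
      constructor
      · rintro ((_ | _) | k) ((_ | _) | l) hkl
        · rfl
        · exact absurd hkl (by simp [f])
        · have h1 : (inl k₀ : κ ⊕ Bool) = if l = k₀ then inr true else inl l := hkl
          split_ifs at h1 with h2
          exact absurd (inl.inj h1).symm h2
        · exact absurd hkl (by simp [f])
        · rfl
        · have h1 : (inr false : κ ⊕ Bool) = if l = k₀ then inr true else inl l := hkl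
          split_ifs at h1
          exact absurd (inr.inj h1) (by simp)
        · have h1 : (if k = k₀ then inr true else inl k : κ ⊕ Bool) = inl k₀ := hkl
          split_ifs at h1 with h2
          exact absurd (inl.inj h1) h2
        · have h1 : (if k = k₀ then inr true else inl k : κ ⊕ Bool) = inr false := hkl
          split_ifs at h1
          exact absurd (inr.inj h1) (by simp)
        · have h1 : (if k = k₀ then inr true else inl k : κ ⊕ Bool) =
            if l = k₀ then inr true else inl l := hkl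
          split_ifs at h1 with h2 h3 h3
          · rw [h2, h3]
          · rw [inl.inj h1]
      · rintro (k | (_ | _))
        · by_cases hk : k = k₀
          · exact ⟨inl false, by rw [hk]; rfl⟩
          · exact ⟨inr k, if_neg hk⟩
        · exact ⟨inl true, rfl⟩
        · exact ⟨inr k₀, if_pos rfl⟩
    have hZ : PosW 𝒮 Z := by
      refine posW_prod 𝒮 (Equiv.ofBijective f hf) ?_ ?_
      · refine posW_pair 𝒮 _ ?_ (fun c => bif c then t else s) (A'.a * t)
          (Nat.mul_pos A'.pos ht) ?_ ?_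
        · rintro (_ | _)
          · exact hl
          · exact hml
        · rintro (_ | _)
          · change (L k₀).a * s = _
            rw [ha]
            exact hst
          · change m.a * t = _
            rw [hma, ha']
        · change m.x ^ t * (L k₀).x ^ s = _
          rw [hx, mul_comm, hdual, ha']
      · have h1 : (fun k => Z (Equiv.ofBijective f hf (inr k))) = L' := by
          funext k
          change Z (if k = k₀ then inr true else inl k) = L' k
          split_ifs with hk
          · rw [hk]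
            rfl
          · exact h k hk
        rw [h1]
        exact hL'
    refine posW_cancel 𝒮 hZ ?_
    refine posW_pair 𝒮 _ ?_ (fun _ => 1) (L' k₀).a ?_ ?_ ?_
    · rintro (_ | _)
      · exact hml
      · exact hl'
    · rw [ha']
      exact A'.pos
    · rintro (_ | _)
      · change m.a * 1 = _
        rw [hma, mul_one]
      · exact mul_one _
    · change (L' k₀).x ^ 1 * m.x ^ 1 = _
      rw [hdual, mul_one]

/-- Replace all letters. -/
theorem posW_pull {κ : Type} [Fintype κ] (L L' : κ → Letter p H) (hrel : ∀ k, Rel (L k) (L' k))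
    (hL' : PosW 𝒮 L') : PosW 𝒮 L := by
  classical
  have h1 : ∀ S : Finset κ, PosW 𝒮 fun k => if k ∈ S then L k else L' k := by
    intro S
    induction S using Finset.induction_on with
    | empty => simpa using hL'
    | insert a S ha ih =>
      refine posW_replace 𝒮 _ _ a (fun k hk => ?_) ?_ ih
      · simp [hk]
      · simp only [Finset.mem_insert_self, if_true, if_neg ha]
        exact hrel a
  simpa using h1 Finset.univ

/-- The classes all of whose eigencomponents belong to positive words. -/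
def posSystem : ClassSystem p H := fun κ Y φ =>
  ∀ [Fintype κ] [∀ k, DecidableEq (frob H (Y k)).ι] (i : ∀ k, (frob H (Y k)).ι),
    φ (fun k => Pi.single (i k) 1) ≠ 0 → PosW 𝒮 fun k => (⟨Y k, i k⟩ : Letter p H)

theorem exists_coef {κ : Type} [Fintype κ] {Y : κ → AbVar p ⊕ 𝒳}
    [∀ k, DecidableEq (frob H (Y k)).ι]
    (φ : MultilinearMap ℂ (fun k => (frob H (Y k)).V) ℂ) (v : ∀ k, (frob H (Y k)).V)
    (h : φ v ≠ 0) : ∃ i : ∀ k, (frob H (Y k)).ι, φ (fun k => Pi.single (i k) 1) ≠ 0 ∧
      ∀ k, v k (i k) ≠ 0 := by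
  classical
  have h1 : v = fun k => ∑ l, v k l • (Pi.single l 1 : (frob H (Y k)).V) := by
    funext k
    funext t
    rw [Finset.sum_apply, Finset.sum_eq_single t]
    · simp
    · intro l _ hl
      simp [hl]
    · intro h
      exact absurd (Finset.mem_univ t) h
  rw [h1, φ.map_sum] at h
  obtain ⟨i, -, hi⟩ := Finset.exists_ne_zero_of_sum_ne_zero h
  rw [φ.map_smul_univ, smul_eq_mul] at hi
  exact ⟨i, right_ne_zero_of_mul hi, fun k =>
    Finset.prod_ne_zero_iff.1 (left_ne_zero_of_mul hi) k (Finset.mem_univ k)⟩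

theorem F_pow_single (C : Frob) [DecidableEq C.ι] (s : ℕ) (i : C.ι) :
    (C.F ^ s) (Pi.single i 1 : C.V) = C.eig i ^ s • (Pi.single i 1 : C.V) := by
  funext t
  rw [F_pow_apply, Pi.smul_apply, smul_eq_mul]
  by_cases ht : t = i
  · rw [ht]
  · rw [Pi.single_eq_of_ne ht, mul_zero, mul_zero]

theorem rel_aux {A A' : AbVar p} (f : A.frob.V →ₗ[ℂ] A'.frob.V) (s t : ℕ)
    (hc : ∀ v, f ((A.frob.F ^ s) v) = (A'.frob.F ^ t) (f v)) (i : A.frob.ι) (i' : A'.frob.ι)
    (v : A.frob.V) (h2 : (A.frob.F ^ s) v = A.frob.eig i ^ s • v) (h : f v i' ≠ 0) :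
    A.frob.eig i ^ s = A'.frob.eig i' ^ t := by
  have h3 := congrFun (hc v) i'
  rw [h2, map_smul, Pi.smul_apply, smul_eq_mul, F_pow_apply] at h3
  exact mul_right_cancel₀ h h3

theorem rel_of_mor {Y Y' : AbVar p ⊕ 𝒳} {f : (frob H Y).V →ₗ[ℂ] (frob H Y').V}
    (hf : IsMor H Y Y' f) [DecidableEq (frob H Y).ι] (i : (frob H Y).ι) (i' : (frob H Y').ι)
    (h : f (Pi.single i 1) i' ≠ 0) : Rel (⟨Y, i⟩ : Letter p H) ⟨Y', i'⟩ := by
  cases hf with
  | hom A A' f hh =>
    obtain ⟨s, t, hs, ht, hst, hc⟩ := hh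
    refine Or.inr ⟨A, A', i, i', s, t, rfl, rfl, hs, ht, hst, ?_⟩
    exact rel_aux f s t hc i i' _ (F_pow_single (frob H (inl A)) s i) h
  | id =>
    left
    have h1 : i' = i := by
      by_contra hne
      apply h
      change (Pi.single i 1 : (frob H Y).V) i' = 0
      exact Pi.single_eq_of_ne hne _
    rw [h1]

theorem eig_of_eigenvector (C : Frob) (s : ℕ) (α : ℂ) (x : C.V) (h : (C.F ^ s) x = α • x)
    (i : C.ι) (hi : x i ≠ 0) : C.eig i ^ s = α := by
  have h1 := congrFun h i
  rw [F_pow_apply, Pi.smul_apply, smul_eq_mul] at h1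
  exact mul_right_cancel₀ hi h1

theorem isStable : IsStable H (posSystem 𝒮) where
  zero := by
    intro κ _ Y _ _ i hi
    exact absurd rfl hi
  add := by
    intro κ _ Y φ φ' h h' _ _ i hi
    by_cases h0 : φ (fun k => Pi.single (i k) 1) = 0
    · refine h' i fun h1 => hi ?_
      rw [add_apply, h0, h1, add_zero]
    · exact h i h0
  smul := by
    intro κ _ Y c φ h _ _ i hi
    refine h i fun h0 => hi ?_
    rw [smul_apply, h0, smul_zero]
  prod := by
    intro κ κ₁ κ₂ _ _ _ e Y φ₁ φ₂ ψ h1 h2 hψ _ _ i hi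
    rw [hψ] at hi
    exact posW_prod 𝒮 e (h1 (fun k => i (e (inl k))) (left_ne_zero_of_mul hi))
      (h2 (fun k => i (e (inr k))) (right_ne_zero_of_mul hi))
  pull := by
    classical
    intro κ _ Y Y' h φ hmor hφ _ _ i hi
    rw [MultilinearMap.compLinearMap_apply] at hi
    obtain ⟨i', h1, h2⟩ := exists_coef φ _ hi
    exact posW_pull 𝒮 _ _ (fun k => rel_of_mor (hmor k) (i k) (i' k) (h2 k)) (hφ i' h1)
  cap := by
    classical
    intro κ _ Y x φ ψ hx hφ hψ _ _ i hi
    rw [hψ] at hi
    obtain ⟨j, h1, h2⟩ := exists_coef φ _ hi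
    have h3 : ∀ k : κ, j (inl k) = i k := by
      intro k
      by_contra hne
      exact h2 (inl k) (Pi.single_eq_of_ne hne _)
    obtain ⟨hl, hl', s, s', b, α, α', hb, hs, hs', hα, hα', hαα⟩ := hx
    have h4 : PosW 𝒮 fun k => (⟨Y k, j k⟩ : Letter p H) := hφ j h1
    have h5 : (fun k => (⟨Y (inl k), i k⟩ : Letter p H)) =
        fun k => (fun k => (⟨Y k, j k⟩ : Letter p H)) (inl k) := by
      funext k
      rw [← h3 k]
    rw [h5]
    refine posW_cancel 𝒮 h4 ?_
    refine posW_pair 𝒮 _ ?_ (fun c => bif c then s' else s) b hb ?_ ?_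
    · rintro (_ | _)
      · exact hl
      · exact hl'
    · rintro (_ | _)
      · exact hs
      · exact hs'
    · have h6 := eig_of_eigenvector _ s α (x false) hα (j (inr false)) (h2 (inr false))
      have h7 := eig_of_eigenvector _ s' α' (x true) hα' (j (inr true)) (h2 (inr true))
      change (frob H (Y (inr true))).eig (j (inr true)) ^ s' *
        (frob H (Y (inr false))).eig (j (inr false)) ^ s = _
      rw [h6, h7, mul_comm, hαα]

/-- The norms of the eigenvalues. -/
theorem norm_eig {B W : ℕ} (hH : ∀ X, IsPure p B W (H X)) (Y : AbVar p ⊕ 𝒳) (i : (frob H Y).ι) :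
    ‖(frob H Y).eig i‖ ^ 2 = (p : ℝ) ^ ((frob H Y).a * (frob H Y).w) := by
  cases Y with
  | inl A =>
    have h1 := frob_weil A i
    rw [← mul_one A.a] at h1
    exact h1
  | inr X => exact (hH X).weil i

/-- **The Tate conjecture and the standard conjectures `D` and of Hodge type for products of any number
of varieties with bounded Betti numbers and of abelian varieties with small simple factors.** -/
theorem main_hodge (B W : ℕ) : ∃ D : ℕ, ∀ (p : ℕ) [Fact p.Prime] (𝒳 : Type) (H : 𝒳 → Frob),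
    (∀ X, IsPure p B W (H X)) → ∀ 𝒮 : CycleSystem p H,
    (∀ (κ : Type) [Fintype κ] (Y : κ → AbVar p ⊕ 𝒳), AtMostOneVariety Y →
      ∑ k, Nat.card (frob H (Y k)).ι ≤ D → TateConj 𝒮 Y ∧ HodgeType 𝒮 Y) →
    ∀ (κ : Type) [Fintype κ] (Y : κ → AbVar p ⊕ 𝒳),
      (∀ k A, Y k = inl A → HasSmallFactors B A) →
      TateConj 𝒮 Y ∧ HomEqNum 𝒮 Y ∧ HodgeType 𝒮 Y := by
  classical
  obtain ⟨D, hD⟩ := main_geo B W
  refine ⟨D, fun p _ 𝒳 H hH 𝒮 hsmall κ _ Y hY => ?_⟩
  have hS := hD p 𝒳 H hH (posSystem 𝒮) (isStable 𝒮) (by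
    intro κ inst Y hY1 hY2 φ hφ inst' _ i hi
    have hinst : inst' = inst := Subsingleton.elim _ _
    subst hinst
    obtain ⟨s, b, m, hb, hs, hw, h1⟩ := hφ
    obtain ⟨hT, hHo⟩ := hsmall κ Y hY1 hY2
    have h2 := h1 fun k => Pi.single (i k) 1
    have h3 : (fun k => ((frob H (Y k)).F ^ s k) (Pi.single (i k) 1 : (frob H (Y k)).V)) =
        fun k => (frob H (Y k)).eig (i k) ^ s k • (Pi.single (i k) 1 : (frob H (Y k)).V) :=
      funext fun k => F_pow_single (frob H (Y k)) (s k) (i k)
    rw [h3, φ.map_smul_univ, smul_eq_mul] at h2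
    have h4 := mul_right_cancel₀ hi h2
    have h5 := posW_of_conj 𝒮 (fun k => (⟨Y k, i k⟩ : Letter p H)) hT hHo s b m hb hs hw h4
    exact h5) κ Y hY
  have hpos : ∀ φ : Tens H Y, IsTate H Y φ → ∀ i, φ i ≠ 0 →
      PosW 𝒮 fun k => (⟨Y k, i k⟩ : Letter p H) := by
    intro φ hφ i hi
    obtain ⟨s, b, m, hb, hs, hw, h1⟩ := hφ
    refine hS (mono fun k => (⟨Y k, i k⟩ : Letter p H)) ⟨s, b, m, hb, hs, hw, fun v => ?_⟩ i ?_
    · rw [mono_apply, mono_apply, ← h1 i hi, ← Finset.prod_mul_distrib]
      refine Finset.prod_congr rfl fun k _ => ?_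
      rw [F_pow_apply]
    · rw [mono_apply]
      refine Finset.prod_ne_zero_iff.2 fun k _ => ?_
      change (Pi.single (i k) 1 : (frob H (Y k)).V) (i k) ≠ 0
      rw [Pi.single_eq_same]
      exact one_ne_zero
  have hT : TateConj 𝒮 Y := by
    intro φ hφ
    have h1 : φ = ∑ i : ∀ k, (frob H (Y k)).ι, φ i • (Pi.single i 1 : Tens H Y) := by
      funext j
      rw [Finset.sum_apply, Finset.sum_eq_single j]
      · simp
      · intro l _ hl
        rw [Pi.smul_apply, Pi.single_eq_of_ne hl.symm, smul_zero]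
      · intro h
        exact absurd (Finset.mem_univ j) h
    rw [h1]
    refine Submodule.sum_mem _ fun i _ => ?_
    by_cases hi : φ i = 0
    · rw [hi, zero_smul]
      exact zero_mem _
    · refine Submodule.smul_mem _ _ ?_
      have h2 := (hpos φ hφ i hi).1 ⟨i, fun k => rfl⟩
      have h3 : vec (fun k => (⟨Y k, i k⟩ : Letter p H)) ⟨i, fun k => rfl⟩ =
          (Pi.single i 1 : Tens H Y) := by
        funext j
        by_cases hj : j = i
        · rw [hj, Pi.single_eq_same]
          exact vec_self _ _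
        · rw [Pi.single_eq_of_ne hj]
          exact vec_ne _ _ hj
      rw [h3] at h2
      exact h2
  refine ⟨hT, homEqNum 𝒮 hT, ?_⟩
  rintro G hG φ hφ ⟨ψ, -, hψ⟩
  have hφ0 : φ ≠ 0 := by
    rintro rfl
    apply hψ
    change bil G 0 ψ = 0
    rw [map_zero, LinearMap.zero_apply]
  have h1 := hodge_of_posW 𝒮 (fun k i => norm_eig hH (Y k) i) hG hφ hφ0
    (hpos φ (𝒮.tate Y φ hφ hφ0))
  exact (Complex.lt_def.1 h1).1

end

end Pool.Agent.Y137.HT
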