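import Pool.Agent.Y137.HT.Word

/-!
# The Tate conjecture and the standard conjecture of Hodge type, and positive words
-/

set_option linter.unusedSectionVars false

namespace Pool.Agent.Y137.HT

open Sum Pool.Agent.Y137.BG
open scoped ComplexConjugate ComplexOrder

noncomputable section

variable {p : ℕ} [Fact p.Prime] {𝒳 : Type} {H : 𝒳 → Frob} (𝒮 : CycleSystem p H)

variable {κ : Type} [Fintype κ] {Y : κ → AbVar p ⊕ 𝒳}

theorem isTate_of_support {φ ψ : Tens H Y} (h : IsTate H Y φ) (hψ : ∀ i, ψ i ≠ 0 → φ i ≠ 0) :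
    IsTate H Y ψ := by
  obtain ⟨s, b, m, hb, hs, hw, h1⟩ := h
  exact ⟨s, b, m, hb, hs, hw, fun i hi => h1 i (hψ i hi)⟩

/-- The Tate conjecture implies that the intersection form is nondegenerate on algebraic cycles. -/
theorem homEqNum (hT : TateConj 𝒮 Y) : HomEqNum 𝒮 Y := by
  classical
  intro G hG φ hφ h0
  by_contra hcon
  push Not at hcon
  apply h0
  have h1 : ∀ ψ ∈ Submodule.span ℂ (𝒮.Q Y : Set (Tens H Y)), bil G φ ψ = 0 := by
    intro ψ hψ
    induction hψ using Submodule.span_induction with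
    | mem x hx => exact hcon x hx
    | zero => exact map_zero _
    | add x y _ _ hx hy => rw [map_add, hx, hy, add_zero]
    | smul c x _ hx => rw [map_smul, hx, smul_zero]
  obtain ⟨s, b, m, hb, hs, hw, hi⟩ := 𝒮.tate Y φ hφ h0
  refine tensor_nondegenerate G (fun k => 𝒮.nondegenerate (Y k) (G k) (hG k)) φ fun j => ?_
  by_cases hj : ∏ k, (frob H (Y k)).eig (j k) ^ s k = (p : ℂ) ^ (b * m)
  · have h2 : IsTate H Y (Pi.single j 1) := by
      refine ⟨s, b, m, hb, hs, hw, fun i hi' => ?_⟩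
      have h3 : i = j := by
        by_contra h3
        exact hi' (Pi.single_eq_of_ne h3 _)
      rw [h3]
      exact hj
    rw [← bil_single]
    exact h1 _ (hT _ h2)
  · refine Finset.sum_eq_zero fun i _ => ?_
    by_contra hne
    have hφi : φ i ≠ 0 := left_ne_zero_of_mul hne
    have hGij := right_ne_zero_of_mul hne
    apply hj
    have h2 : ∀ k, (frob H (Y k)).eig (i k) * (frob H (Y k)).eig (j k) =
        (p : ℂ) ^ ((frob H (Y k)).a * (frob H (Y k)).w) := fun k =>
      𝒮.equivariant (Y k) (G k) (hG k) _ _ (Finset.prod_ne_zero_iff.1 hGij k (Finset.mem_univ k))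
    have h3 : (∏ k, (frob H (Y k)).eig (i k) ^ s k) * ∏ k, (frob H (Y k)).eig (j k) ^ s k =
        (p : ℂ) ^ (b * m) * (p : ℂ) ^ (b * m) := by
      rw [← Finset.prod_mul_distrib]
      have h4 : ∀ k, (frob H (Y k)).eig (i k) ^ s k * (frob H (Y k)).eig (j k) ^ s k =
          (p : ℂ) ^ (b * (frob H (Y k)).w) := by
        intro k
        rw [← mul_pow, h2, ← pow_mul]
        congr 1
        rw [← hs k]
        ring
      rw [Finset.prod_congr rfl fun k _ => h4 k, Finset.prod_pow_eq_pow_sum, ← Finset.mul_sum, hw,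
        ← pow_add]
      congr 1
      ring
    rw [hi i hφi] at h3
    have hp0 : (p : ℂ) ^ (b * m) ≠ 0 :=
      pow_ne_zero _ (Nat.cast_ne_zero.2 (Fact.out : p.Prime).ne_zero)
    exact mul_left_cancel₀ hp0 h3

theorem linInd (L : κ → Letter p H) : LinearIndependent ℂ (vec L) := by
  classical
  have _ : Fintype (Idx L) := Fintype.ofFinite _
  rw [Fintype.linearIndependent_iff]
  intro c hc i
  have h1 := congrFun hc i.1
  rw [Finset.sum_apply, Finset.sum_eq_single i] at h1
  · rw [Pi.smul_apply, vec_self, smul_eq_mul, mul_one] at h1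
    exact h1
  · intro j _ hj
    rw [Pi.smul_apply, vec_ne _ _ (fun h => hj (Subtype.ext h.symm)), smul_zero]
  · intro h
    exact absurd (Finset.mem_univ i) h

/-- The words on a product for which both conjectures are known. -/
theorem posW_of_conj (L : κ → Letter p H) (hT : TateConj 𝒮 fun k => (L k).1)
    (hH : HodgeType 𝒮 fun k => (L k).1) (s : κ → ℕ) (b m : ℕ) (hb : 0 < b)
    (hs : ∀ k, (L k).a * s k = b) (hw : ∑ k, (L k).w = 2 * m)
    (hx : ∏ k, (L k).x ^ s k = (p : ℂ) ^ (b * m)) : PosW 𝒮 L := by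
  classical
  have _ : Fintype (Idx L) := Fintype.ofFinite _
  have h1 : ∀ i : Idx L, vec L i ∈ Submodule.span ℂ (𝒮.Q (fun k => (L k).1) : Set _) := by
    intro i
    refine hT _ ⟨s, b, m, hb, hs, hw, fun j hj => ?_⟩
    have h2 : j = i.1 := by
      by_contra h3
      exact hj (vec_ne _ _ h3)
    rw [← hx, h2]
    exact Finset.prod_congr rfl fun k _ => by rw [i.2 k]
  refine ⟨h1, fun G hG => ?_⟩
  refine gram_posDef (isRat 𝒮 hG) (fun f hf g hg => 𝒮.symmetric _ G hG f hf g hg) ?_ h1 (linInd L)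
  intro f hf hf0
  exact hH G hG f hf (homEqNum 𝒮 hT G hG f hf hf0)

/-- The Frobenius endomorphism of the factor `Y k`. -/
def frobAt (Y : κ → AbVar p ⊕ 𝒳) (k : κ) : Tens H Y →ₗ[ℂ] Tens H Y where
  toFun φ := fun i => (frob H (Y k)).eig (i k) * φ i
  map_add' φ ψ := by
    funext i
    simp only [Pi.add_apply, mul_add]
  map_smul' c φ := by
    funext i
    simp only [Pi.smul_apply, smul_eq_mul, RingHom.id_apply]
    ring

theorem bil_frobAt {G : ∀ k, Form H (Y k)} (hG : ∀ k, G k ∈ 𝒮.Pol (Y k)) (k : κ)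
    (φ ψ : Tens H Y) : bil G (frobAt Y k φ) (frobAt Y k ψ) =
      (p : ℂ) ^ ((frob H (Y k)).a * (frob H (Y k)).w) * bil G φ ψ := by
  classical
  simp only [bil_apply, pairing, Finset.mul_sum]
  refine Finset.sum_congr rfl fun i _ => Finset.sum_congr rfl fun j _ => ?_
  change (frob H (Y k)).eig (i k) * φ i * (∏ k, G k (i k) (j k)) *
    ((frob H (Y k)).eig (j k) * ψ j) = _
  by_cases h : G k (i k) (j k) = 0
  · have h1 : ∏ k, G k (i k) (j k) = 0 := Finset.prod_eq_zero (Finset.mem_univ k) h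
    rw [h1]
    ring
  · rw [← 𝒮.equivariant (Y k) (G k) (hG k) _ _ h]
    ring

/-- Classes with different eigenvalues are orthogonal for the hermitian form. -/
theorem orthogonal {G : ∀ k, Form H (Y k)} (hG : ∀ k, G k ∈ 𝒮.Pol (Y k)) (k : κ) (α α' : ℂ)
    (hα : α ≠ α')
    (hα' : α' * conj α' = (p : ℂ) ^ ((frob H (Y k)).a * (frob H (Y k)).w)) {x x' y : Tens H Y}
    (hxs : x ∈ Submodule.span ℂ (𝒮.Q Y : Set (Tens H Y)))
    (hx : frobAt Y k x = α • x) (hx' : frobAt Y k x' = α' • x') (h : IsConj (𝒮.Q Y) x' y) :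
    bil G x y = 0 := by
  have h1 : IsConj (𝒮.Q Y) (frobAt Y k x') (frobAt Y k y) :=
    h.map (frobAt Y k) fun f hf => 𝒮.frobenius Y k f hf
  have h2 : IsConj (𝒮.Q Y) (frobAt Y k x') (conj α' • y) := by
    rw [hx']
    exact h.smul α'
  have h3 := (isRat 𝒮 hG).unique hxs h1 h2
  have h4 := bil_frobAt 𝒮 hG k x y
  rw [hx, map_smul, LinearMap.smul_apply, h3, map_smul, smul_eq_mul, smul_eq_mul, ← mul_assoc,
    ← hα'] at h4
  by_contra hne
  have h5 := mul_right_cancel₀ hne h4
  have h6 : conj α' ≠ 0 := by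
    intro h6
    rw [h6, mul_zero] at hα'
    exact (pow_ne_zero _ (Nat.cast_ne_zero.2 (Fact.out : p.Prime).ne_zero)) hα'.symm
  exact hα (mul_right_cancel₀ h6 h5)

/-- The standard conjecture of Hodge type follows from the positivity for all words. -/
theorem hodge_of_posW (hnorm : ∀ k i, ‖(frob H (Y k)).eig i‖ ^ 2 =
      (p : ℝ) ^ ((frob H (Y k)).a * (frob H (Y k)).w))
    {G : ∀ k, Form H (Y k)} (hG : ∀ k, G k ∈ 𝒮.Pol (Y k)) {φ : Tens H Y} (hφ : φ ∈ 𝒮.Q Y)
    (hφ0 : φ ≠ 0) (hpos : ∀ i, φ i ≠ 0 → PosW 𝒮 fun k => (⟨Y k, i k⟩ : Letter p H)) :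
    0 < bil G φ φ := by
  classical
  let χ : (∀ k, (frob H (Y k)).ι) → κ → ℂ := fun i k => (frob H (Y k)).eig (i k)
  let P : (κ → ℂ) → Tens H Y := fun c i => if χ i = c then φ i else 0
  let X : Finset (κ → ℂ) := Finset.univ.image χ
  have hsum : ∑ c ∈ X, P c = φ := by
    funext i
    rw [Finset.sum_apply, Finset.sum_eq_single (χ i)]
    · exact if_pos rfl
    · intro c _ hc
      exact if_neg hc.symm
    · intro h
      exact absurd (Finset.mem_image_of_mem χ (Finset.mem_univ i)) h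
  -- the components are combinations of the vectors of a word
  have hcomp : ∀ i₀, φ i₀ ≠ 0 → ∀ [Fintype (Idx fun k => (⟨Y k, i₀ k⟩ : Letter p H))],
      P (χ i₀) = ∑ i : Idx fun k => (⟨Y k, i₀ k⟩ : Letter p H),
        φ i.1 • vec (fun k => (⟨Y k, i₀ k⟩ : Letter p H)) i := by
    intro i₀ _ _
    funext j
    rw [Finset.sum_apply]
    by_cases hj : χ j = χ i₀
    · have h1 : P (χ i₀) j = φ j := if_pos hj
      rw [h1]
      let j' : Idx fun k => (⟨Y k, i₀ k⟩ : Letter p H) := ⟨j, fun k => congrFun hj k⟩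
      rw [Finset.sum_eq_single j']
      · rw [Pi.smul_apply]
        have h2 := vec_self (fun k => (⟨Y k, i₀ k⟩ : Letter p H)) j'
        change φ j = φ j * vec _ j' j'.1
        rw [h2, mul_one]
      · intro i _ hi
        rw [Pi.smul_apply, vec_ne _ _ (fun h => hi (Subtype.ext h.symm)), smul_zero]
      · intro h
        exact absurd (Finset.mem_univ _) h
    · have h1 : P (χ i₀) j = 0 := if_neg hj
      rw [h1]
      refine (Finset.sum_eq_zero fun i _ => ?_).symm
      rw [Pi.smul_apply, vec_ne _ _ (fun h => hj ?_), smul_zero]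
      funext k
      rw [h]
      exact i.2 k
  have hzero : ∀ c, (∀ i₀, χ i₀ = c → φ i₀ = 0) → P c = 0 := by
    intro c hc
    funext i
    change (if χ i = c then φ i else 0) = 0
    split_ifs with h
    · exact hc i h
    · rfl
  have hspan : ∀ c, P c ∈ Submodule.span ℂ (𝒮.Q Y : Set (Tens H Y)) := by
    intro c
    by_cases hc : ∃ i₀, χ i₀ = c ∧ φ i₀ ≠ 0
    · obtain ⟨i₀, rfl, hi₀⟩ := hc
      have _ : Fintype (Idx fun k => (⟨Y k, i₀ k⟩ : Letter p H)) := Fintype.ofFinite _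
      rw [hcomp i₀ hi₀]
      exact Submodule.sum_mem _ fun i _ => Submodule.smul_mem _ _ ((hpos i₀ hi₀).1 i)
    · push Not at hc
      rw [hzero c hc]
      exact zero_mem _
  choose y hy using fun c => exists_conj (hspan c)
  have hconj : IsConj (𝒮.Q Y) φ (∑ c ∈ X, y c) := by
    have h1 := IsConj.sum X P y fun c _ => hy c
    rwa [hsum] at h1
  have hφspan : φ ∈ Submodule.span ℂ (𝒮.Q Y : Set (Tens H Y)) := Submodule.subset_span hφ
  rw [(isRat 𝒮 hG).unique hφspan (IsConj.of_mem hφ) hconj, map_sum]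
  have hfrob : ∀ c k, frobAt Y k (P c) = c k • P c := by
    intro c k
    funext i
    change (frob H (Y k)).eig (i k) * (if χ i = c then φ i else 0) =
      c k * (if χ i = c then φ i else 0)
    split_ifs with h
    · rw [← h]
    · rw [mul_zero, mul_zero]
  have horth : ∀ c ∈ X, bil G φ (y c) = bil G (P c) (y c) := by
    intro c hc
    obtain ⟨i₀, -, hi₀⟩ := Finset.mem_image.1 hc
    conv_lhs => rw [← hsum]
    rw [map_sum, LinearMap.sum_apply, Finset.sum_eq_single c]
    · intro c' _ hne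
      obtain ⟨k, hk⟩ := Function.ne_iff.1 hne
      refine orthogonal 𝒮 hG k (c' k) (c k) hk ?_ (hspan c') (hfrob c' k) (hfrob c k) (hy c)
      rw [← hi₀, Complex.mul_conj, Complex.normSq_eq_norm_sq]
      change ((‖(frob H (Y k)).eig (i₀ k)‖ ^ 2 : ℝ) : ℂ) = _
      rw [hnorm]
      push_cast
      rfl
    · intro h
      exact absurd hc h
  have hterm : ∀ c, P c ≠ 0 → 0 < bil G (P c) (y c) := by
    intro c hc
    obtain ⟨i₀, rfl, hi₀⟩ : ∃ i₀, χ i₀ = c ∧ φ i₀ ≠ 0 := by
      by_contra hcon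
      push Not at hcon
      exact hc (hzero c hcon)
    have _ : Fintype (Idx fun k => (⟨Y k, i₀ k⟩ : Letter p H)) := Fintype.ofFinite _
    have h1 := hcomp i₀ hi₀
    have h2 := hy (χ i₀)
    rw [h1] at h2 ⊢
    refine pos_of_gram (isRat 𝒮 hG) (hpos i₀ hi₀).1 ((hpos i₀ hi₀).2 G hG) (fun i => φ i.1) ?_ h2
    intro h3
    exact hi₀ (congrFun h3 ⟨i₀, fun k => rfl⟩)
  obtain ⟨i₁, hi₁⟩ := Function.ne_iff.1 hφ0
  refine Finset.sum_pos' (fun c hc => ?_) ⟨χ i₁, Finset.mem_image_of_mem χ (Finset.mem_univ i₁), ?_⟩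
  · rw [horth c hc]
    by_cases h0 : P c = 0
    · rw [h0, map_zero, LinearMap.zero_apply]
    · exact (hterm c h0).le
  · rw [horth _ (Finset.mem_image_of_mem χ (Finset.mem_univ i₁))]
    refine hterm _ fun h => hi₁ ?_
    have h1 := congrFun h i₁
    have h2 : P (χ i₁) i₁ = φ i₁ := if_pos rfl
    rw [h2] at h1
    exact h1

end

end Pool.Agent.Y137.HT
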