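import Pool.Agent.Y137.HT.Bil

/-!
# Words of eigenvectors with a positive definite hermitian form
-/

set_option linter.unusedSectionVars false

namespace Pool.Agent.Y137.HT

open Sum Pool.Agent.Y137.BG
open scoped ComplexConjugate ComplexOrder

noncomputable section

variable {p : ℕ} [Fact p.Prime] {𝒳 : Type} {H : 𝒳 → Frob}

/-- The multi-indices with the same eigenvalues as the word `L`. -/
abbrev Idx {κ : Type} (L : κ → Letter p H) : Type :=
  {i : ∀ k, (frob H (L k).1).ι // ∀ k, (frob H (L k).1).eig (i k) = (L k).x}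

open Classical in
/-- The basis vectors. -/
def vec {κ : Type} (L : κ → Letter p H) (i : Idx L) : Tens H fun k => (L k).1 :=
  fun j => if j = i.1 then 1 else 0

theorem vec_self {κ : Type} (L : κ → Letter p H) (i : Idx L) : vec L i i.1 = 1 := if_pos rfl

theorem vec_ne {κ : Type} (L : κ → Letter p H) (i : Idx L) {j : ∀ k, (frob H (L k).1).ι}
    (h : j ≠ i.1) : vec L i j = 0 := if_neg h

variable (𝒮 : CycleSystem p H)

/-- The eigenspace of the word `L` consists of algebraic classes, and the hermitian form is positive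
definite on it. -/
def PosW {κ : Type} [Fintype κ] (L : κ → Letter p H) : Prop :=
  (∀ i : Idx L, vec L i ∈ Submodule.span ℂ (𝒮.Q (fun k => (L k).1) : Set _)) ∧
  ∀ G : ∀ k, Form H (L k).1, (∀ k, G k ∈ 𝒮.Pol (L k).1) →
    (gram (𝒮.Q fun k => (L k).1) (bil G) (vec L)).PosDef

theorem isRat {κ : Type} [Fintype κ] {Y : κ → AbVar p ⊕ 𝒳} {G : ∀ k, Form H (Y k)}
    (hG : ∀ k, G k ∈ 𝒮.Pol (Y k)) : IsRat (𝒮.Q Y) (bil G) :=
  fun f hf g hg => 𝒮.rational Y G hG f hf g hg

section

variable {κ κ₁ κ₂ : Type} [Fintype κ] [Fintype κ₁] [Fintype κ₂] (e : κ₁ ⊕ κ₂ ≃ κ)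

/-- The restriction of an index. -/
def idxLeft {L : κ → Letter p H} (i : Idx L) : Idx fun k => L (e (inl k)) :=
  ⟨fun k => i.1 (e (inl k)), fun k => i.2 (e (inl k))⟩

/-- The restriction of an index. -/
def idxRight {L : κ → Letter p H} (i : Idx L) : Idx fun k => L (e (inr k)) :=
  ⟨fun k => i.1 (e (inr k)), fun k => i.2 (e (inr k))⟩

theorem vec_eq (L : κ → Letter p H) (i : Idx L) :
    vec L i = ext (Y := fun k => (L k).1) e (vec _ (idxLeft e i)) (vec _ (idxRight e i)) := by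
  funext j
  rw [ext_apply]
  by_cases h : j = i.1
  · subst h
    have h1 := vec_self _ (idxLeft e i)
    have h2 := vec_self _ (idxRight e i)
    rw [vec_self]
    change 1 = vec _ (idxLeft e i) (idxLeft e i).1 * vec _ (idxRight e i) (idxRight e i).1
    rw [h1, h2, mul_one]
  · rw [vec_ne _ _ h]
    by_cases h1 : (fun k => j (e (inl k))) = (idxLeft e i).1
    · have h2 : (fun k => j (e (inr k))) ≠ (idxRight e i).1 := by
        intro h2
        apply h
        funext k
        obtain ⟨k, rfl⟩ := e.surjective k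
        rcases k with k | k
        · exact congrFun h1 k
        · exact congrFun h2 k
      rw [vec_ne _ _ h2, mul_zero]
    · rw [vec_ne _ _ h1, zero_mul]

theorem conj_ext (L : κ → Letter p H) {x1 y1 : Tens H fun k => (L (e (inl k))).1}
    {x2 y2 : Tens H fun k => (L (e (inr k))).1}
    (h1 : IsConj (𝒮.Q fun k => (L (e (inl k))).1) x1 y1)
    (h2 : IsConj (𝒮.Q fun k => (L (e (inr k))).1) x2 y2) :
    IsConj (𝒮.Q fun k => (L k).1) (ext (Y := fun k => (L k).1) e x1 x2)
      (ext (Y := fun k => (L k).1) e y1 y2) :=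
  IsConj.map₂ _ (fun f hf g hg => 𝒮.prod e (fun k => (L k).1) f hf g hg) h1 h2

theorem posW_prod {L : κ → Letter p H} (h1 : PosW 𝒮 fun k => L (e (inl k)))
    (h2 : PosW 𝒮 fun k => L (e (inr k))) : PosW 𝒮 L := by
  classical
  constructor
  · intro i
    obtain ⟨y1, hy1⟩ := exists_conj (h1.1 (idxLeft e i))
    obtain ⟨y2, hy2⟩ := exists_conj (h2.1 (idxRight e i))
    rw [vec_eq e]
    exact (conj_ext 𝒮 e L hy1 hy2).mem
  · intro G hG
    have hG1 := h1.2 (fun k => G (e (inl k))) (fun k => hG _)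
    have hG2 := h2.2 (fun k => G (e (inr k))) (fun k => hG _)
    have h3 : gram (𝒮.Q fun k => (L k).1) (bil G) (vec L) =
        (Matrix.kronecker (gram (𝒮.Q fun k => (L (e (inl k))).1) (bil fun k => G (e (inl k)))
          (vec fun k => L (e (inl k))))
        (gram (𝒮.Q fun k => (L (e (inr k))).1) (bil fun k => G (e (inr k)))
          (vec fun k => L (e (inr k))))).submatrix
          (fun i => (idxLeft e i, idxRight e i)) (fun i => (idxLeft e i, idxRight e i)) := by
      ext i j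
      obtain ⟨x1, hx1⟩ := exists_conj (h1.1 (idxLeft e i))
      obtain ⟨x2, hx2⟩ := exists_conj (h2.1 (idxRight e i))
      obtain ⟨y1, hy1⟩ := exists_conj (h1.1 (idxLeft e j))
      obtain ⟨y2, hy2⟩ := exists_conj (h2.1 (idxRight e j))
      have h4 := conj_ext 𝒮 e L hy1 hy2
      have h5 := conj_ext 𝒮 e L hx1 hx2
      rw [← vec_eq e] at h4 h5
      change herm _ _ (vec L i) (vec L j) = herm _ _ (vec _ (idxLeft e i)) (vec _ (idxLeft e j)) *
        herm _ _ (vec _ (idxRight e i)) (vec _ (idxRight e j))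
      rw [(isRat 𝒮 hG).herm_eq h5.mem h4,
        (isRat 𝒮 (fun k => hG (e (inl k)))).herm_eq (h1.1 _) hy1,
        (isRat 𝒮 (fun k => hG (e (inr k)))).herm_eq (h2.1 _) hy2, vec_eq e]
      exact bil_ext (Y := fun k => (L k).1) e G _ _ _ _
    rw [h3]
    refine (hG1.kronecker hG2).submatrix fun i j hij => ?_
    have h4 := congrArg (fun x => x.1.1) hij
    have h5 := congrArg (fun x => x.2.1) hij
    refine Subtype.ext ?_
    funext k
    obtain ⟨k, rfl⟩ := e.surjective k
    rcases k with k | k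
    · exact congrFun h4 k
    · exact congrFun h5 k

end

section

variable {κ₁ κ₂ : Type} [Fintype κ₁] [Fintype κ₂]

/-- The word `L` without the letters `L (inr k)`. -/
theorem posW_cancel {L : κ₁ ⊕ κ₂ → Letter p H} (h : PosW 𝒮 L)
    (h2 : PosW 𝒮 fun k => L (inr k)) : PosW 𝒮 fun k => L (inl k) := by
  classical
  let e : κ₁ ⊕ κ₂ ≃ κ₁ ⊕ κ₂ := Equiv.refl _
  let j₀ : Idx fun k => L (inr k) := ⟨fun k => (L (inr k)).2, fun k => rfl⟩
  let J : (Idx fun k => L (inl k)) → Idx L := fun i =>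
    ⟨fun k => Sum.rec i.1 j₀.1 k, by
      rintro (k | k)
      · exact i.2 k
      · exact j₀.2 k⟩
  have hJ : ∀ i, vec L (J i) = ext (Y := fun k => (L k).1) e
      (vec (fun k => L (inl k)) i) (vec (fun k => L (inr k)) j₀) := fun i => vec_eq e L (J i)
  choose G₂ hG₂ using fun k : κ₂ => 𝒮.projective (L (inr k)).1
  obtain ⟨y₂, hy₂⟩ := exists_conj (h2.1 j₀)
  have hc : ∀ G : ∀ k : κ₂, Form H (L (inr k)).1, (∀ k, G k ∈ 𝒮.Pol (L (inr k)).1) →
      0 < bil G (vec (fun k => L (inr k)) j₀) y₂ := by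
    intro G hG
    have h3 := (h2.2 G hG).diag_pos (i := j₀)
    change 0 < herm _ _ (vec _ j₀) (vec _ j₀) at h3
    rwa [(isRat 𝒮 hG).herm_eq (h2.1 _) hy₂] at h3
  have hmem : ∀ i, vec (fun k => L (inl k)) i ∈
      Submodule.span ℂ (𝒮.Q (fun k => (L (inl k)).1) : Set _) := by
    intro i
    obtain ⟨z, hz⟩ := exists_conj (h.1 (J i))
    have h3 := IsConj.map₂ (sl (Y := fun k => (L k).1) G₂)
      (fun f hf g hg => 𝒮.slant (fun k => (L k).1) G₂ hG₂ f hf g hg) hz hy₂.symm
    have h4 := h3.mem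
    rw [hJ] at h4
    have h5 := sl_ext (Y := fun k => (L k).1) G₂ (vec (fun k => L (inl k)) i)
      (vec (fun k => L (inr k)) j₀) y₂
    rw [h5] at h4
    have h6 := (hc G₂ hG₂).ne'
    have h7 := Submodule.smul_mem _ (bil G₂ (vec (fun k => L (inr k)) j₀) y₂)⁻¹ h4
    rwa [smul_smul, inv_mul_cancel₀ h6, one_smul] at h7
  refine ⟨hmem, fun G hG => ?_⟩
  let G' : ∀ k : κ₁ ⊕ κ₂, Form H (L k).1 := fun k => Sum.rec G G₂ k
  have hG' : ∀ k, G' k ∈ 𝒮.Pol (L k).1 := by
    rintro (k | k)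
    · exact hG k
    · exact hG₂ k
  set c : ℂ := bil G₂ (vec (fun k => L (inr k)) j₀) y₂ with hcdef
  have hc0 : 0 < c := hc G₂ hG₂
  have h3 : gram (𝒮.Q fun k => (L (inl k)).1) (bil G) (vec fun k => L (inl k)) =
      c⁻¹ • (gram (𝒮.Q fun k => (L k).1) (bil G') (vec L)).submatrix J J := by
    ext i j
    obtain ⟨y1, hy1⟩ := exists_conj (hmem j)
    have h4 : IsConj (𝒮.Q fun k => (L k).1) (vec L (J j))
        (ext (Y := fun k => (L k).1) e y1 y₂) := by
      rw [hJ]
      exact conj_ext 𝒮 e L hy1 hy₂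
    rw [Matrix.smul_apply, Matrix.submatrix_apply, smul_eq_mul]
    change herm _ _ (vec _ i) (vec _ j) = c⁻¹ * herm _ _ (vec L (J i)) (vec L (J j))
    rw [(isRat 𝒮 hG).herm_eq (hmem i) hy1, (isRat 𝒮 hG').herm_eq (h.1 _) h4, hJ]
    have h5 := bil_ext (Y := fun k => (L k).1) e G' (vec (fun k => L (inl k)) i) y1
      (vec (fun k => L (inr k)) j₀) y₂
    rw [h5]
    change _ = c⁻¹ * (bil G _ y1 * c)
    rw [mul_comm c⁻¹, mul_assoc, mul_inv_cancel₀ hc0.ne', mul_one]
  rw [h3]
  refine Matrix.PosDef.smul ?_ ?_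
  · refine (h.2 G' hG').submatrix fun i j hij => ?_
    have h4 := congrArg (fun x : Idx L => x.1) hij
    refine Subtype.ext ?_
    funext k
    exact congrFun h4 (inl k)
  · exact inv_pos.2 hc0

end

end

end Pool.Agent.Y137.HT
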